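import Pool.Agent.helper34.MO.SpecB

/-!
# Row G2M of project MO
-/

set_option autoImplicit false

open Complex Finset

namespace Pool.Agent.MO

theorem G2M_arg_eq (x : ℂ) (h : 0 < x.re) : arg x = Real.arctan (x.im / x.re) := by
  have h1 : |arg x| < Real.pi / 2 := Complex.abs_arg_lt_pi_div_two_iff.mpr (Or.inl h)
  rw [abs_lt] at h1
  rw [← Complex.tan_arg, Real.arctan_tan h1.1 h1.2]

theorem G2M_arg_nonneg (x : ℂ) (h : 0 ≤ x.im) : 0 ≤ arg x := Complex.arg_nonneg_iff.mpr h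

theorem G2M_arg_mono (r z : ℂ) (hr : 0 < r.re) (hz : 0 ≤ z.re) (hz' : 0 ≤ z.im) :
    min (arg r) 0 ≤ arg (r + z) := by
  by_cases h : 0 ≤ (r + z).im
  · exact (min_le_right _ _).trans (G2M_arg_nonneg _ h)
  · refine (min_le_left _ _).trans ?_
    have hre : 0 < (r + z).re := by rw [Complex.add_re]; linarith
    rw [G2M_arg_eq r hr, G2M_arg_eq _ hre]
    apply Real.arctan_mono
    push Not at h
    rw [div_le_div_iff₀ hr hre]
    have h1 : (r + z).im = r.im + z.im := Complex.add_im r z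
    have h2 : (r + z).re = r.re + z.re := Complex.add_re r z
    have h3 : r.im ≤ (r + z).im := by rw [h1]; linarith
    have h4 : r.re ≤ (r + z).re := by rw [h2]; linarith
    nlinarith

theorem G2M_acc (A B m z z' : ℂ) (h : Acc2 A B m) (hz : 0 ≤ z.re) (hz' : 0 ≤ z'.re) :
    Acc2 (A + z) (B + z') m := by
  obtain ⟨h1, h2, h3⟩ := h
  refine ⟨by rw [Complex.add_re]; linarith, by rw [Complex.add_re]; linarith, ?_⟩
  rw [Complex.add_re, Complex.add_re]
  nlinarith [mul_nonneg hz hz', mul_nonneg h1.le hz', mul_nonneg hz h2.le]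

theorem G2M_acc_symm (A B m : ℂ) (h : Acc2 A B m) : Acc2 B A m :=
  ⟨h.2.1, h.1, by rw [mul_comm]; exact h.2.2⟩

theorem G2M_swap (hEX2 : EX2_stmt) (f : ℝ) (A B m : ℂ) (h : Acc2 A B m) (hg : Good2 f A B m) :
    Good2 f B A m := by
  intro p q hp hq
  have h1 : Acc2 (A + (q : ℂ)) (B + (p : ℂ)) m :=
    G2M_acc A B m q p h (by simpa using hq) (by simpa using hp)
  rw [← (hEX2 _ _ _ h1).1]
  exact hg q p hq hp

theorem G2M_right (hEX2 : EX2_stmt) (hG2D : G2D_stmt) (f : ℝ) (A B m z : ℂ) (h : Acc2 A B m)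
    (hg : Good2 f A B m) (hz : 0 ≤ z.re) (hz' : 0 ≤ z.im) : Good2 f A (B + z) m := by
  intro p q hp hq
  have h1 : Acc2 (A + (p : ℂ)) (B + (q : ℂ)) m :=
    G2M_acc A B m p q h (by simpa using hp) (by simpa using hq)
  have h2 := (hEX2 _ _ _ h1).2
  have h3 := hg p q hp hq
  have h4 := (hG2D.1 f A B m h hg).1 p hp
  have h5 := G2M_arg_mono (B + q - m ^ 2 / (A + p)) z h2 hz hz'
  have h6 : B + z + (q : ℂ) - m ^ 2 / (A + p) = B + q - m ^ 2 / (A + p) + z := by ring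
  unfold ph2 at h3 ⊢
  rw [h6]
  rcases le_total (arg (B + q - m ^ 2 / (A + p))) 0 with h7 | h7
  · rw [min_eq_left h7] at h5
    linarith
  · rw [min_eq_right h7] at h5
    linarith

/-- The theorem with the hypotheses which are really used. -/
theorem G2M_of (hEX2 : EX2_stmt) (hG2D : G2D_stmt) : G2M_stmt := by
  intro f A B m z z' h hg h1 h2 h3 h4
  refine ⟨G2M_acc A B m z z' h h1 h3, ?_⟩
  have g1 := G2M_right hEX2 hG2D f A B m z' h hg h3 h4
  have a1 : Acc2 A (B + z') m := by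
    have := G2M_acc A B m 0 z' h (by simp) h3
    rwa [add_zero] at this
  have g2 := G2M_swap hEX2 f A (B + z') m a1 g1
  have g3 := G2M_right hEX2 hG2D f (B + z') A m z (G2M_acc_symm _ _ _ a1) g2 h1 h2
  have a2 : Acc2 (B + z') (A + z) m := G2M_acc_symm _ _ _ (G2M_acc A B m z z' h h1 h3)
  exact G2M_swap hEX2 f (B + z') (A + z) m a2 g3

theorem G2M (_hMOD : MOD_stmt) (_hEV : EV_stmt) (_hA2P : A2P_stmt) (hEX2 : EX2_stmt)
    (hG2D : G2D_stmt) (_hPHE : PHE_stmt) : G2M_stmt := G2M_of hEX2 hG2D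

end Pool.Agent.MO
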